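import Mathlib
import Pool.Agent.H22.NoPrime

set_option autoImplicit false

namespace Pool.Agent.Results.MP_31a5b6_al.NoPrimes

open Pool.Agent.H22.NoPrime

/-- A doubly transitive lattice-ordered group of order automorphisms of bounded support in which
every strictly positive element is the join of two disjoint elements different from the identity. -/
theorem result : ∃ (T : Type) (_ : LinearOrder T), (∃ a b c : T, a < b ∧ b < c) ∧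
    ∃ L : Subgroup (T ≃o T),
      (∀ f ∈ L, ∀ g ∈ L, (∃ h ∈ L, ∀ t, h t = max (f t) (g t)) ∧
        ∃ h ∈ L, ∀ t, h t = min (f t) (g t)) ∧
      (∀ r₁ r₂ s₁ s₂ : T, r₁ < r₂ → s₁ < s₂ → ∃ f ∈ L, f r₁ = s₁ ∧ f r₂ = s₂) ∧
      (∀ f ∈ L, ∃ t₁ t₂ : T, ∀ s, (s < t₁ ∨ t₂ < s) → f s = s) ∧
      ∀ f ∈ L, (∀ t, t ≤ f t) → f ≠ 1 →
        ∃ f₁ ∈ L, ∃ f₂ ∈ L, f₁ ≠ 1 ∧ f₂ ≠ 1 ∧ (∀ t, min (f₁ t) (f₂ t) = t) ∧
          ∀ t, max (f₁ t) (f₂ t) = f t :=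
  ⟨Hyperreal, inferInstance, ⟨0, 1, 2, one_pos, one_lt_two⟩, LL Hyperreal,
    fun f hf g hg => ⟨⟨_, (lat hf hg).1, mx_apply f g⟩, _, (lat hf hg).2, mn_apply f g⟩,
    trans2, fun _ hf => hf.2, fun _ hf => split sat hf⟩

end Pool.Agent.Results.MP_31a5b6_al.NoPrimes
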